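import Pool.Agent.N637.SLK.Lin
import Pool.Agent.N787.SLX.Qc

/-!
# Equidistribution of linear and quadratic forms over the field with two elements, `k` forms

Project SLK (helper637); adaptation by helper558 of the file `Pool.Agent.N787.SLX.Qc` by helper787.
-/

set_option autoImplicit false
set_option linter.all false

open scoped Classical

namespace Pool.Agent.N558.SLK

open Finset
open Pool.Agent.N787.SLX (chi z2 chi_zero chi_one chi_add abs_chi chi_sum tr orth fou P card_P nf
  fac_bd)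

section main

variable {n : ℕ} {J : Type} [Fintype J] {U : Type} [Fintype U] {Λ Q : Type} [Fintype Λ]
  [Fintype Q] (g : U → J → ZMod 2)
  (d : Fin n → U → ZMod 2) (F : Λ → J → ZMod 2) (cc : Q → Λ → ZMod 2) (K : Λ → Fin n → ZMod 2)
  (LL : Q → Fin n → Fin n → Fin n → J → ZMod 2) (A : Q → Fin n → Fin n → ZMod 2)

/-- The index type of the equations. -/
abbrev Ix (n : ℕ) (U Q : Type) : Type := (Fin n × U) ⊕ (Q × P n)

/-- The defects of the equations. -/
noncomputable def Fd (y : Fin n → J → ZMod 2) : Ix n U Q → ZMod 2 :=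
  Sum.elim (fun i => ∑ k, g i.2 k * y i.1 k - d i.1 i.2)
    (fun i => ∑ l, cc i.1 l * ((K l i.2.1.1 + ∑ k, F l k * y i.2.1.1 k) *
        (K l i.2.1.2 + ∑ k, F l k * y i.2.1.2 k) +
        ∑ k, F l k * y i.2.1.1 k * y i.2.1.2 k) +
      ∑ x, ∑ k, LL i.1 i.2.1.1 i.2.1.2 x k * y x k - A i.1 i.2.1.1 i.2.1.2)

/-- The nonlinear part as a function of the sums. -/
noncomputable def Gd (b : Ix n U Q → ZMod 2) (W : Λ × Fin n → ZMod 2) : ZMod 2 :=
  - ∑ i : Fin n × U, b (Sum.inl i) * d i.1 i.2 +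
  ∑ i : Q × P n, b (Sum.inr i) * (∑ l, cc i.1 l * ((K l i.2.1.1 + W (l, i.2.1.1)) *
    (K l i.2.1.2 + W (l, i.2.1.2))) - A i.1 i.2.1.1 i.2.1.2)

/-- the quadratic coefficients -/
noncomputable def Cq (b : Ix n U Q → ZMod 2) (k : J) (p : P n) : ZMod 2 :=
  ∑ q, b (Sum.inr (q, p)) * ∑ l, cc q l * F l k

/-- the linear coefficients -/
noncomputable def Cl (b : Ix n U Q → ZMod 2) (k : J) (a : Fin n) : ZMod 2 :=
  ∑ v, b (Sum.inl (a, v)) * g v k + ∑ i : Q × P n, b (Sum.inr i) * LL i.1 i.2.1.1 i.2.1.2 a k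

theorem split (b : Ix n U Q → ZMod 2) (y : Fin n → J → ZMod 2) :
    ∑ i, b i * Fd g d F cc K LL A y i =
      Gd d cc K A b (fun m => ∑ k, F m.1 k * y m.2 k) +
      ∑ k, nf (Cq F cc b k) (Cl g LL b k) (fun a => y a k) := by
  have E1 : ∑ i : Fin n × U, b (Sum.inl i) * ∑ k, g i.2 k * y i.1 k =
      ∑ k, ∑ a, (∑ v, b (Sum.inl (a, v)) * g v k) * y a k := by
    rw [Fintype.sum_prod_type]
    conv_rhs => rw [sum_comm]
    refine sum_congr rfl fun a _ => ?_
    simp_rw [mul_sum, sum_mul]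
    rw [sum_comm]
    refine sum_congr rfl fun v _ => sum_congr rfl fun k _ => ?_
    ring
  have E2 : ∑ i : Q × P n, b (Sum.inr i) * ∑ l, cc i.1 l *
        ∑ k, F l k * y i.2.1.1 k * y i.2.1.2 k =
      ∑ k, ∑ p : P n, Cq F cc b k p * (y p.1.1 k * y p.1.2 k) := by
    rw [Fintype.sum_prod_type_right]
    conv_rhs => rw [sum_comm]
    refine sum_congr rfl fun p _ => ?_
    unfold Cq
    simp_rw [mul_sum, sum_mul]
    conv_rhs => rw [sum_comm]
    refine sum_congr rfl fun q _ => ?_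
    rw [sum_comm]
    refine sum_congr rfl fun k _ => sum_congr rfl fun l _ => ?_
    ring
  have E3 : ∑ i : Q × P n, b (Sum.inr i) * ∑ x, ∑ k, LL i.1 i.2.1.1 i.2.1.2 x k * y x k =
      ∑ k, ∑ a, (∑ i : Q × P n, b (Sum.inr i) * LL i.1 i.2.1.1 i.2.1.2 a k) * y a k := by
    simp_rw [mul_sum, sum_mul]
    rw [sum_comm]
    conv_rhs => rw [sum_comm]
    refine sum_congr rfl fun a _ => ?_
    rw [sum_comm]
    refine sum_congr rfl fun k _ => sum_congr rfl fun p _ => ?_
    ring
  have R : ∑ k, nf (Cq F cc b k) (Cl g LL b k) (fun a => y a k) =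
      ∑ i : Q × P n, b (Sum.inr i) * ∑ l, cc i.1 l *
        ∑ k, F l k * y i.2.1.1 k * y i.2.1.2 k +
      ∑ i : Fin n × U, b (Sum.inl i) * ∑ k, g i.2 k * y i.1 k +
      ∑ i : Q × P n, b (Sum.inr i) * ∑ x, ∑ k, LL i.1 i.2.1.1 i.2.1.2 x k * y x k := by
    rw [E1, E2, E3, ← sum_add_distrib, ← sum_add_distrib]
    refine sum_congr rfl fun k _ => ?_
    unfold nf
    rw [add_assoc, ← sum_add_distrib]
    congr 1
    refine sum_congr rfl fun a _ => ?_
    unfold Cl
    ring
  rw [R, Fintype.sum_sum_type]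
  unfold Gd Fd
  simp only [Sum.elim_inl, Sum.elim_inr, mul_add, mul_sub, sum_add_distrib, sum_sub_distrib]
  ring

/-- The bound for a character which involves a quadratic equation. -/
theorem S_bd {t : ℕ} (b : Ix n U Q → ZMod 2) (T : Finset J) (ht : t ≤ T.card) (p₀ : P n)
    (hT : ∀ k ∈ T, Cq F cc b k p₀ = 1) :
    |∑ y : Fin n → J → ZMod 2, chi (∑ i, b i * Fd g d F cc K LL A y i)| ≤
      2 ^ (n * Fintype.card J) * 2 ^ (Fintype.card Λ * n) / 2 ^ t := by
  have h1 := fou (M := Λ × Fin n) (Y := Fin n → J → ZMod 2) (fun W => chi (Gd d cc K A b W))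
    (fun W => (abs_chi _).le)
    (fun y m => ∑ k, F m.1 k * y m.2 k)
    (fun y => chi (∑ k, nf (Cq F cc b k) (Cl g LL b k) (fun a => y a k)))
    (2 ^ (n * Fintype.card J) / 2 ^ t) ?_
  · have h2 : ∑ y : Fin n → J → ZMod 2, chi (∑ i, b i * Fd g d F cc K LL A y i) =
      ∑ y : Fin n → J → ZMod 2, chi (Gd d cc K A b (fun m => ∑ k, F m.1 k * y m.2 k)) *
        chi (∑ k, nf (Cq F cc b k) (Cl g LL b k) (fun a => y a k)) := by
      refine sum_congr rfl fun y _ => ?_
      rw [split, chi_add]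
    rw [h2]
    refine h1.trans (le_of_eq ?_)
    rw [Fintype.card_prod, Fintype.card_fin]
    ring
  · intro s
    have h3 : ∀ y : Fin n → J → ZMod 2,
        chi (∑ m : Λ × Fin n, s m * ∑ k, F m.1 k * y m.2 k) *
        chi (∑ k, nf (Cq F cc b k) (Cl g LL b k) (fun a => y a k)) =
        chi (∑ k, nf (Cq F cc b k)
        (fun a => Cl g LL b k a + ∑ l, s (l, a) * F l k) (fun a => y a k)) := by
      intro y
      rw [← chi_add]
      congr 1
      have h4 : ∑ m : Λ × Fin n, s m * ∑ k, F m.1 k * y m.2 k =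
          ∑ k, ∑ a, (∑ l, s (l, a) * F l k) * y a k := by
        rw [Fintype.sum_prod_type_right]
        conv_rhs => rw [sum_comm]
        refine sum_congr rfl fun a _ => ?_
        simp_rw [mul_sum, sum_mul]
        rw [sum_comm]
        refine sum_congr rfl fun k _ => sum_congr rfl fun l _ => ?_
        ring
      rw [h4, ← sum_add_distrib]
      refine sum_congr rfl fun k _ => ?_
      unfold nf
      rw [add_left_comm, ← sum_add_distrib]
      congr 1
      refine sum_congr rfl fun a _ => ?_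
      ring
    rw [sum_congr rfl fun y _ => h3 y]
    exact fac_bd (fun k => Cq F cc b k) _ T ht p₀ hT

/-- The characters which involve only linear equations. -/
theorem S_lin (hg : ∀ b : U → ZMod 2, (∀ k, ∑ v, b v * g v k = 0) → ∀ v, b v = 0)
    (b : Ix n U Q → ZMod 2) (h1 : ∀ p, b (Sum.inr p) = 0) (a₀ : Fin n) (v₀ : U)
    (h2 : b (Sum.inl (a₀, v₀)) ≠ 0) :
    ∑ y : Fin n → J → ZMod 2, chi (∑ i, b i * Fd g d F cc K LL A y i) = 0 := by
  obtain ⟨k₀, hk₀⟩ : ∃ k₀, ∑ v, b (Sum.inl (a₀, v)) * g v k₀ ≠ 0 := by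
    by_contra hcon
    push Not at hcon
    exact h2 (hg (fun v => b (Sum.inl (a₀, v))) hcon v₀)
  have hk1 : ∑ v, b (Sum.inl (a₀, v)) * g v k₀ = 1 := (z2 _).resolve_left hk₀
  refine tr _ (fun a k => if a = a₀ ∧ k = k₀ then 1 else 0) fun y => ?_
  have hs : ∀ y : Fin n → J → ZMod 2, ∑ i, b i * Fd g d F cc K LL A y i =
      ∑ i : Fin n × U, b (Sum.inl i) * (∑ k, g i.2 k * y i.1 k - d i.1 i.2) := by
    intro y
    rw [Fintype.sum_sum_type, sum_eq_zero (f := fun p => b (Sum.inr p) * _) fun p _ => by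
      rw [h1, zero_mul], add_zero]
    rfl
  rw [hs, hs]
  simp only [Pi.add_apply]
  rw [Fintype.sum_prod_type, Fintype.sum_prod_type]
  have h3 : ∀ a v, b (Sum.inl (a, v)) * (∑ k, g v k * (y a k + if a = a₀ ∧ k = k₀ then 1 else 0) -
      d a v) = b (Sum.inl (a, v)) * (∑ k, g v k * y a k - d a v) +
        if a = a₀ then b (Sum.inl (a, v)) * g v k₀ else 0 := by
    intro a v
    simp_rw [mul_add]
    rw [sum_add_distrib]
    by_cases ha : a = a₀
    · subst ha
      simp only [true_and, mul_ite, mul_one, mul_zero, sum_ite_eq', mem_univ, if_true]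
      ring
    · simp [ha]
  dsimp only
  simp_rw [h3]
  simp only [sum_add_distrib]
  congr 1
  rw [sum_eq_single a₀]
  · simpa using hk1
  · intro a _ ha
    simp [ha]
  · intro h; exact absurd (mem_univ _) h

/-- the general statement -/
theorem gen (t : ℕ) (hg : ∀ b : U → ZMod 2, (∀ k, ∑ v, b v * g v k = 0) → ∀ v, b v = 0)
    (ht : ∀ γ : Q → ZMod 2, γ ≠ 0 →
      t ≤ (univ.filter fun x : J => ∑ q, γ q * ∑ l, cc q l * F l x ≠ 0).card) :
    |((univ.filter fun y : Fin n → J → ZMod 2 => (∀ a v, ∑ k, g v k * y a k = d a v) ∧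
      ∀ q a b, a < b → ∑ l, cc q l * ((K l a + ∑ k, F l k * y a k) *
        (K l b + ∑ k, F l k * y b k) + ∑ k, F l k * y a k * y b k) +
        ∑ x, ∑ k, LL q a b x k * y x k = A q a b).card : ℝ) -
      2 ^ (n * Fintype.card J) / (2 ^ (n * Fintype.card U) *
        2 ^ (Fintype.card Q * (n * (n - 1) / 2)))| ≤
    2 ^ (n * Fintype.card J) * 2 ^ (Fintype.card Λ * n) / 2 ^ t := by
  set B : ℝ := 2 ^ (n * Fintype.card J) * 2 ^ (Fintype.card Λ * n) / 2 ^ t with hB
  set S : (Ix n U Q → ZMod 2) → ℝ := fun b =>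
    ∑ y : Fin n → J → ZMod 2, chi (∑ i, b i * Fd g d F cc K LL A y i) with hS
  have hS0 : S 0 = 2 ^ (n * Fintype.card J) := by
    rw [hS]
    simp only [Pi.zero_apply, zero_mul, sum_const_zero, chi_zero]
    rw [sum_const, card_univ, Fintype.card_fun, Fintype.card_fun, ZMod.card, Fintype.card_fin,
      ← pow_mul, mul_comm n]
    simp
  have hB0 : 0 ≤ B := by rw [hB]; positivity
  have hSb : ∀ b, b ≠ 0 → |S b| ≤ B := by
    intro b hb
    by_cases h1 : ∃ p, b (Sum.inr p) ≠ 0
    · obtain ⟨⟨q₀, p₀⟩, hp₀⟩ := h1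
      have hγ : (fun q => b (Sum.inr (q, p₀))) ≠ 0 := fun h => hp₀ (congrFun h q₀)
      refine S_bd g d F cc K LL A b _ (ht _ hγ) p₀ fun k hk => ?_
      exact (z2 _).resolve_left (mem_filter.1 hk).2
    · push Not at h1
      obtain ⟨⟨a₀, v₀⟩, h4⟩ : ∃ i, b (Sum.inl i) ≠ 0 := by
        by_contra hcon
        push Not at hcon
        apply hb
        funext i
        rcases i with i | i
        · exact hcon i
        · exact h1 i
      rw [hS]
      simp only
      rw [S_lin g d F cc K LL A hg b h1 a₀ v₀ h4, abs_zero]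
      exact hB0
  have hc : (2 : ℝ) ^ Fintype.card (Ix n U Q) *
      ((univ.filter fun y : Fin n → J → ZMod 2 => (∀ a v, ∑ k, g v k * y a k = d a v) ∧
      ∀ q a b, a < b → ∑ l, cc q l * ((K l a + ∑ k, F l k * y a k) *
        (K l b + ∑ k, F l k * y b k) + ∑ k, F l k * y a k * y b k) +
        ∑ x, ∑ k, LL q a b x k * y x k = A q a b).card : ℝ) = ∑ b, S b := by
    rw [hS]
    simp only
    rw [sum_comm, card_filter, Nat.cast_sum, mul_sum]
    refine sum_congr rfl fun y _ => ?_
    rw [orth]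
    have h5 : (∀ i, Fd g d F cc K LL A y i = 0) ↔
      ((∀ a v, ∑ k, g v k * y a k = d a v) ∧
      ∀ q a b, a < b → ∑ l, cc q l * ((K l a + ∑ k, F l k * y a k) *
        (K l b + ∑ k, F l k * y b k) + ∑ k, F l k * y a k * y b k) +
        ∑ x, ∑ k, LL q a b x k * y x k = A q a b) := by
      constructor
      · intro h
        exact ⟨fun a v => sub_eq_zero.1 (h (Sum.inl (a, v))), fun q a b hab =>
          sub_eq_zero.1 (h (Sum.inr (q, ⟨(a, b), hab⟩)))⟩
      · rintro ⟨h6, h7⟩ (⟨a, v⟩ | ⟨q, ⟨a, b⟩, hab⟩)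
        · exact sub_eq_zero.2 (h6 a v)
        · exact sub_eq_zero.2 (h7 q a b hab)
    by_cases h6 : ∀ i, Fd g d F cc K LL A y i = 0
    · rw [if_pos (h5.1 h6), if_pos h6, Nat.cast_one, mul_one]
    · rw [if_neg (fun h => h6 (h5.2 h)), if_neg h6, Nat.cast_zero, mul_zero]
  have hcard : (2 : ℝ) ^ Fintype.card (Ix n U Q) =
      2 ^ (n * Fintype.card U) * 2 ^ (Fintype.card Q * (n * (n - 1) / 2)) := by
    rw [← pow_add]
    congr 1
    have h7 := card_P n
    have h8 : Fintype.card (P n) = n * (n - 1) / 2 := by omega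
    rw [Fintype.card_sum, Fintype.card_prod, Fintype.card_prod, Fintype.card_fin, h8]
  have hp : (0 : ℝ) < 2 ^ Fintype.card (Ix n U Q) := by positivity
  rw [← hcard]
  set N : ℝ := ((univ.filter fun y : Fin n → J → ZMod 2 => (∀ a v, ∑ k, g v k * y a k = d a v) ∧
      ∀ q a b, a < b → ∑ l, cc q l * ((K l a + ∑ k, F l k * y a k) *
        (K l b + ∑ k, F l k * y b k) + ∑ k, F l k * y a k * y b k) +
        ∑ x, ∑ k, LL q a b x k * y x k = A q a b).card : ℝ) with hN
  have h9 : |(2 : ℝ) ^ Fintype.card (Ix n U Q) * N - S 0| ≤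
      2 ^ Fintype.card (Ix n U Q) * B := by
    rw [hc, ← add_sum_erase univ S (mem_univ 0), add_sub_cancel_left]
    refine (abs_sum_le_sum_abs _ _).trans ?_
    calc ∑ b ∈ univ.erase (0 : Ix n U Q → ZMod 2), |S b|
        ≤ ∑ b ∈ univ.erase (0 : Ix n U Q → ZMod 2), B :=
          sum_le_sum fun b hb => hSb b (mem_erase.1 hb).1
      _ ≤ ∑ b : Ix n U Q → ZMod 2, B :=
          sum_le_sum_of_subset_of_nonneg (erase_subset _ _) fun _ _ _ => hB0
      _ = _ := by
          rw [sum_const, card_univ, Fintype.card_fun, ZMod.card, nsmul_eq_mul]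
          push_cast
          ring
  rw [hS0] at h9
  have h10 : (2 : ℝ) ^ Fintype.card (Ix n U Q) * (N - 2 ^ (n * Fintype.card J) /
      2 ^ Fintype.card (Ix n U Q)) = 2 ^ Fintype.card (Ix n U Q) * N -
        2 ^ (n * Fintype.card J) := by
    field_simp
  rw [← h10, abs_mul, abs_of_pos hp] at h9
  exact le_of_mul_le_mul_left h9 hp

end main

/-- SLK-QC. -/
theorem t_QC : Pool.Agent.N637.SLK.S_QC := by
  intro n t k L J _ U _ g d u f c μ κ L1 L2 α β hg ht
  have h := gen (n := n) (J := J) (U := U) (Λ := Option (Fin L)) (Q := Option (Fin k)) g d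
    (fun l => Option.elim l u f)
    (fun q l => Option.elim q (Option.elim l 1 fun _ => 0) fun i => Option.elim l 0 fun l => c i l)
    (fun l => Option.elim l μ κ) (fun q => Option.elim q L1 L2) (fun q => Option.elim q α β) t hg
    ?_
  · have e1 : (univ.filter fun y : Fin n → J → ZMod 2 => (∀ a v, ∑ k, g v k * y a k = d a v) ∧
      (∀ a b, a < b → (μ a + ∑ k, u k * y a k) * (μ b + ∑ k, u k * y b k) +
        ∑ k, u k * y a k * y b k + ∑ x, ∑ k, L1 a b x k * y x k = α a b) ∧
      (∀ i a b, a < b → ∑ l, c i l * ((κ l a + ∑ k, f l k * y a k) * (κ l b + ∑ k, f l k * y b k) +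
        ∑ k, f l k * y a k * y b k) + ∑ x, ∑ k, L2 i a b x k * y x k = β i a b)) =
      (univ.filter fun y : Fin n → J → ZMod 2 => (∀ a v, ∑ k, g v k * y a k = d a v) ∧
      ∀ (q : Option (Fin k)) a b, a < b → ∑ l : Option (Fin L),
        (Option.elim q (Option.elim l 1 fun _ => 0) fun i => Option.elim l 0 fun l => c i l) *
        (((Option.elim l μ κ : Fin n → ZMod 2) a + ∑ k, (Option.elim l u f : J → ZMod 2) k * y a k) *
        ((Option.elim l μ κ : Fin n → ZMod 2) b + ∑ k, (Option.elim l u f : J → ZMod 2) k * y b k) +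
        ∑ k, (Option.elim l u f : J → ZMod 2) k * y a k * y b k) +
        ∑ x, ∑ k, (Option.elim q L1 L2 : Fin n → Fin n → Fin n → J → ZMod 2) a b x k * y x k =
        (Option.elim q α β : Fin n → Fin n → ZMod 2) a b) := by
      refine filter_congr fun y _ => and_congr Iff.rfl ?_
      rw [Option.forall]
      refine and_congr ?_ ?_
      · simp only [Option.elim_none, Fintype.sum_option, Option.elim_some, one_mul, zero_mul,
          sum_const_zero, add_zero]
      · simp only [Option.elim_none, Fintype.sum_option, Option.elim_some, zero_mul, zero_add]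
    rw [e1]
    refine (le_of_eq ?_).trans (h.trans (le_of_eq ?_))
    · rw [Fintype.card_option, Fintype.card_fin]
    · rw [Fintype.card_option, Fintype.card_fin]
  · intro γ hγ
    have h1 : γ none ≠ 0 ∨ (fun i => γ (some i)) ≠ 0 := by
      by_contra hcon
      push Not at hcon
      apply hγ
      funext q
      rcases q with _ | q
      · exact hcon.1
      · exact congrFun hcon.2 q
    refine (ht (γ none) (fun i => γ (some i)) h1).trans (le_of_eq ?_)
    congr 1
    refine filter_congr fun x _ => ?_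
    simp only [Option.elim_none, Fintype.sum_option, Option.elim_some, one_mul, zero_mul,
          sum_const_zero, add_zero, zero_add]

end Pool.Agent.N558.SLK
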